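import Mathlib

set_option autoImplicit false

/-!
Self-dual codes over the letters `0, x, y, z` (MP_a46c6f_co), as submodules of `V → ZMod 2 × ZMod 2`:
`x = (1, 0)`, `y = (1, 1)`, `z = (0, 1)`.
-/

namespace Pool.Agent.H98.Code

/-- letters -/
abbrev K := ZMod 2 × ZMod 2

/-- the letter `z` -/
def z : K := (0, 1)

/-- the symplectic form on the letters -/
def kf (a b : K) : ZMod 2 := a.1 * b.2 + a.2 * b.1

section
variable {V : Type} [Fintype V]

/-- the symplectic form on words -/
def form (u v : V → K) : ZMod 2 := ∑ i, kf (u i) (v i)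

/-- `L` is self-orthogonal and maximal with this property -/
structure IsCode (L : Submodule (ZMod 2) (V → K)) : Prop where
  iso : ∀ u ∈ L, ∀ v ∈ L, form u v = 0
  max : ∀ u, (∀ v ∈ L, form u v = 0) → u ∈ L

end

section
variable {V : Type}

/-- the word has no letter `z` -/
def ZFree (u : V → K) : Prop := ∀ v, u v ≠ z

/-- the word has only the letters `0` and `z` -/
def ZOnly (u : V → K) : Prop := ∀ v, (u v).1 = 0

/-- `L` contains no `{0, z}`-word except `0` -/
def NoZ (L : Submodule (ZMod 2) (V → K)) : Prop := ∀ u ∈ L, ZOnly u → u = 0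

/-- the word has the letter `z` exactly at `g` -/
def Pointed (c : V → K) (g : V) : Prop := c g = z ∧ ∀ v, v ≠ g → c v ≠ z

/-- `u` splits at `g`: it is the sum of two words of `L` with `z` at `g` and disjoint otherwise -/
def Splits (L : Submodule (ZMod 2) (V → K)) (u : V → K) (g : V) : Prop :=
  ∃ c₁ ∈ L, ∃ c₂ ∈ L, c₁ + c₂ = u ∧ c₁ g = z ∧ c₂ g = z ∧ ∀ v, v ≠ g → c₁ v = 0 ∨ c₂ v = 0

/-- every nonzero `z`-free word which is `0` at `e` splits -/
def CritAt (L : Submodule (ZMod 2) (V → K)) (e : V) : Prop :=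
  ∀ u ∈ L, u ≠ 0 → ZFree u → u e = 0 → ∃ g, Splits L u g

/-- every nonzero `z`-free word splits -/
def Critical (L : Submodule (ZMod 2) (V → K)) : Prop :=
  ∀ u ∈ L, u ≠ 0 → ZFree u → ∃ g, Splits L u g

/-- the minor along `ι : W → V` with the letters `σ v` outside the range of `ι`: the words `u ∘ ι` of
the words `u` of `L` with `u v ∈ {0, σ v}` for every `v` outside the range of `ι`. (For `σ v ≠ 0`,
`kf (u v) (σ v) = 0` means `u v = 0` or `u v = σ v`.) -/
def Minor {W : Type} (L : Submodule (ZMod 2) (V → K)) (ι : W → V) (σ : V → K) :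
    Submodule (ZMod 2) (W → K) where
  carrier := {a | ∃ u ∈ L, (∀ v, v ∉ Set.range ι → kf (u v) (σ v) = 0) ∧ a = fun w => u (ι w)}
  zero_mem' := ⟨0, L.zero_mem, by simp [kf], rfl⟩
  add_mem' := by
    rintro a b ⟨u, hu, hu1, rfl⟩ ⟨v, hv, hv1, rfl⟩
    refine ⟨u + v, L.add_mem hu hv, ?_, rfl⟩
    intro i hi
    have e1 := hu1 i hi
    have e2 := hv1 i hi
    simp only [kf, Pi.add_apply, Prod.fst_add, Prod.snd_add] at *
    linear_combination e1 + e2
  smul_mem' := by
    rintro c a ⟨u, hu, hu1, rfl⟩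
    refine ⟨c • u, L.smul_mem c hu, ?_, rfl⟩
    intro i hi
    have e1 := hu1 i hi
    simp only [kf, Pi.smul_apply, Prod.smul_fst, Prod.smul_snd, smul_eq_mul] at *
    linear_combination c * e1

end

end Pool.Agent.H98.Code
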