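import Mathlib
import Pool.Agent.H98.Code.Defs

set_option autoImplicit false

/-!
Full states and the hereditary class of codes (MP_a46c6f_co).
-/

namespace Pool.Agent.H98.Code

section
variable {V : Type}

/-- `u` is below the state `D`: every letter of `u` is `0` or the letter of `D` -/
def Below (u D : V → K) : Prop := ∀ v, u v = 0 ∨ u v = D v

/-- `D` is a full state of `L`: it has a letter `x` or `y` everywhere, and every place is covered by
a word of `L` below `D` -/
def FullState (L : Submodule (ZMod 2) (V → K)) (D : V → K) : Prop :=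
  (∀ v, (D v).1 = 1) ∧ ∀ v, ∃ u ∈ L, Below u D ∧ u v ≠ 0

/-- the word `u` is below the partial state `(E, P, s)`: `0` or `z` on `E`, `0` or `s v` on `P` -/
def BelowOn (E P : Set V) (s u : V → K) : Prop :=
  (∀ v ∈ E, (u v).1 = 0) ∧ ∀ v ∈ P, u v = 0 ∨ u v = s v

/-- the partial state `(E, P, s)` (delete `E` by `z`, state `s` on `P`) is covered: every place of `P`
is covered by a word of `L` below it which is `0` outside `E` and `P` -/
def Covered (L : Submodule (ZMod 2) (V → K)) (E P : Set V) (s : V → K) : Prop :=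
  Disjoint E P ∧ (∀ v ∈ P, (s v).1 = 1) ∧
    ∀ v ∈ P, ∃ u ∈ L, BelowOn E P s u ∧ (∀ w, w ∉ E → w ∉ P → u w = 0) ∧ u v ≠ 0

/-- for every covered partial state with `E ∪ P` nonempty the minor (the words below it, restricted to
the complement of `E ∪ P`) contains a word with exactly one letter `z` or has a full state -/
def HER (L : Submodule (ZMod 2) (V → K)) : Prop :=
  ∀ (E P : Set V) (s : V → K), Covered L E P s → (E ∪ P).Nonempty →
    (∃ g, g ∉ E ∧ g ∉ P ∧ ∃ u ∈ L, BelowOn E P s u ∧ u g = z ∧
      ∀ w, w ∉ E → w ∉ P → w ≠ g → u w = 0) ∨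
    ∃ ψ : V → K, (∀ v, (ψ v).1 = 1) ∧ ∀ v, v ∉ E → v ∉ P → ∃ u ∈ L, BelowOn E P s u ∧
      (∀ w, w ∉ E → w ∉ P → u w = 0 ∨ u w = ψ w) ∧ u v ≠ 0

end

section
variable {V : Type} [Fintype V]

/-- the class of codes with exactly one full state, of corank one, and with `HER` -/
structure AA (L : Submodule (ZMod 2) (V → K)) : Prop where
  code : IsCode L
  noZ : NoZ L
  ex : ∃ D, FullState L D
  uniq : ∀ D D', FullState L D → FullState L D' → D = D'
  /-- the words below a full state are `0` and the state itself -/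
  cor : ∀ D, FullState L D → ∀ u ∈ L, Below u D → u = 0 ∨ u = D
  her : HER L

/-- the graph of a code without `{0, z}`-words: `v ~ w` iff the row of `v` (the word of `L` with a
letter `x` or `y` exactly at `v`) has the letter `z` at `w` -/
def graph (L : Submodule (ZMod 2) (V → K)) : SimpleGraph V :=
  SimpleGraph.fromRel fun v w => ∃ r ∈ L, (r v).1 = 1 ∧ (∀ i, i ≠ v → (r i).1 = 0) ∧ r w = z

end

end Pool.Agent.H98.Code
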