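import Mathlib
import Pool.Agent.H98.Code.Defs

set_option autoImplicit false

/-!
Minors of self-dual codes are self-dual; a self-dual code without `{0, z}`-words is the code of a
symmetric matrix (MP_a46c6f_co).
-/

namespace Pool.Agent.H98.Code

/-! ### letters -/

theorem kf_comm (a b : K) : kf a b = kf b a := by
  simp only [kf]
  ring

theorem kf_self (a : K) : kf a a = 0 := by
  revert a
  decide

theorem kf_zero_left (a : K) : kf 0 a = 0 := by simp [kf]

theorem kf_zero_right (a : K) : kf a 0 = 0 := by simp [kf]

theorem kf_add_left (a b c : K) : kf (a + b) c = kf a c + kf b c := by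
  simp only [kf, Prod.fst_add, Prod.snd_add]
  ring

theorem kf_add_right (a b c : K) : kf a (b + c) = kf a b + kf a c := by
  simp only [kf, Prod.fst_add, Prod.snd_add]
  ring

theorem kf_z_right (a : K) : kf a z = a.1 := by simp [kf, z]

theorem kf_z_left (a : K) : kf z a = a.1 := by simp [kf, z]

theorem kf_eq_zero_iff (a s : K) (hs : s ≠ 0) : kf a s = 0 ↔ a = 0 ∨ a = s := by
  revert a s
  decide

theorem kf_of_kf (a b s : K) (hs : s ≠ 0) (ha : kf a s = 0) (hb : kf b s = 0) : kf a b = 0 := by
  revert a b s
  decide

theorem k_ne_z_iff (a : K) : a ≠ z ↔ (a.1 = 0 → a.2 = 0) := by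
  revert a
  decide

theorem k_cases (a : K) : a = 0 ∨ a = z ∨ a.1 = 1 := by
  revert a
  decide

theorem k_add_self (a : K) : a + a = 0 := by
  revert a
  decide

theorem k_neg (a : K) : -a = a := by
  revert a
  decide

theorem k_fst_add_z (a : K) : (a + z).1 = a.1 := by simp [z]

section
variable {V : Type}

theorem w_add_self (u : V → K) : u + u = 0 := by
  funext v
  exact k_add_self _

theorem w_neg (u : V → K) : -u = u := by
  funext v
  exact k_neg _

theorem w_sub (u w : V → K) : u - w = u + w := by
  rw [sub_eq_add_neg, w_neg]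

theorem w_add_eq_iff (u w x : V → K) : u + w = x ↔ u = x + w := by
  constructor
  · rintro rfl
    rw [add_assoc, w_add_self, add_zero]
  · rintro rfl
    rw [add_assoc, w_add_self, add_zero]

end

section
variable {V : Type} [Fintype V]

theorem form_comm (u v : V → K) : form u v = form v u := by
  simp only [form]
  exact Finset.sum_congr rfl fun i _ => kf_comm _ _

theorem form_self (u : V → K) : form u u = 0 := by
  simp only [form]
  exact Finset.sum_eq_zero fun i _ => kf_self _

theorem form_add_left (u v w : V → K) : form (u + v) w = form u w + form v w := by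
  simp only [form, Pi.add_apply, kf_add_left, Finset.sum_add_distrib]

theorem form_add_right (u v w : V → K) : form u (v + w) = form u v + form u w := by
  simp only [form, Pi.add_apply, kf_add_right, Finset.sum_add_distrib]

theorem form_smul_left (c : ZMod 2) (u w : V → K) : form (c • u) w = c * form u w := by
  simp only [form, Finset.mul_sum, kf, Pi.smul_apply, Prod.smul_fst, Prod.smul_snd, smul_eq_mul]
  exact Finset.sum_congr rfl fun i _ => by ring

theorem form_smul_right (c : ZMod 2) (u w : V → K) : form u (c • w) = c * form u w := by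
  rw [form_comm, form_smul_left, form_comm]

theorem form_single [DecidableEq V] (u : V → K) (v : V) (a : K) :
    form u (Pi.single v a) = kf (u v) a := by
  simp only [form]
  rw [Finset.sum_eq_single v]
  · rw [Pi.single_eq_same]
  · intro i _ hi
    rw [Pi.single_eq_of_ne hi, kf_zero_right]
  · intro h
    exact absurd (Finset.mem_univ v) h

/-- the form as a bilinear form -/
noncomputable def bf : LinearMap.BilinForm (ZMod 2) (V → K) :=
  LinearMap.mk₂ (ZMod 2) form form_add_left form_smul_left form_add_right form_smul_right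

theorem bf_apply (u v : V → K) : bf u v = form u v := rfl

theorem bf_nondeg : (bf : LinearMap.BilinForm (ZMod 2) (V → K)).Nondegenerate := by
  classical
  have key : ∀ u : V → K, (∀ v, form u v = 0) → u = 0 := by
    intro u hu
    funext v
    have h1 := hu (Pi.single v (1, 0))
    have h2 := hu (Pi.single v (0, 1))
    rw [form_single] at h1 h2
    change u v = 0
    revert h1 h2
    generalize u v = a
    revert a
    decide
  refine ⟨?_, ?_⟩
  · intro u hu
    exact key u hu
  · intro u hu
    refine key u fun v => ?_
    rw [form_comm]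
    exact hu v

theorem bf_refl : (bf : LinearMap.BilinForm (ZMod 2) (V → K)).IsRefl := by
  intro u v h
  rw [bf_apply] at h ⊢
  rw [form_comm]
  exact h

/-- the orthogonal space of `L ∩ P^⊥` is `L + P` -/
theorem mem_sup_of_orth {L : Submodule (ZMod 2) (V → K)} (hL : IsCode L)
    (P : Submodule (ZMod 2) (V → K)) (a : V → K)
    (h : ∀ u ∈ L, (∀ p ∈ P, form u p = 0) → form a u = 0) : ∃ l ∈ L, ∃ p ∈ P, l + p = a := by
  have h1 : a ∈ bf.orthogonal (bf.orthogonal (L ⊔ P)) := by
    rw [LinearMap.BilinForm.mem_orthogonal_iff]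
    intro u hu
    rw [LinearMap.BilinForm.mem_orthogonal_iff] at hu
    have h2 : form a u = 0 := by
      apply h
      · apply hL.max
        intro v hv
        rw [form_comm]
        exact hu v (Submodule.mem_sup_left hv)
      · intro p hp
        rw [form_comm]
        exact hu p (Submodule.mem_sup_right hp)
    change form u a = 0
    rw [form_comm]
    exact h2
  rw [LinearMap.BilinForm.orthogonal_orthogonal bf_nondeg bf_refl] at h1
  obtain ⟨l, hl, p, hp, hlp⟩ := Submodule.mem_sup.1 h1
  exact ⟨l, hl, p, hp, hlp⟩

end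

section minor
variable {V W : Type} [Fintype V] [Fintype W]

theorem mem_minor {L : Submodule (ZMod 2) (V → K)} {ι : W → V} {σ : V → K} {a : W → K} :
    a ∈ Minor L ι σ ↔
      ∃ u ∈ L, (∀ v, v ∉ Set.range ι → kf (u v) (σ v) = 0) ∧ a = fun w => u (ι w) := Iff.rfl

/-- minors of self-dual codes are self-dual -/
theorem minor_isCode {L : Submodule (ZMod 2) (V → K)} (hL : IsCode L) {ι : W → V}
    (hι : Function.Injective ι) {σ : V → K} (hσ : ∀ v, v ∉ Set.range ι → σ v ≠ 0) :
    IsCode (Minor L ι σ) := by
  classical
  have hsum : ∀ (u v : V → K) (_ : ∀ i, i ∉ Set.range ι → kf (u i) (v i) = 0),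
      form (fun w => u (ι w)) (fun w => v (ι w)) = form u v := by
    intro u v h
    exact Fintype.sum_of_injective ι hι _ _ h fun i => rfl
  refine ⟨?_, ?_⟩
  · rintro a ⟨u, hu, hu1, rfl⟩ b ⟨v, hv, hv1, rfl⟩
    rw [hsum]
    · exact hL.iso u hu v hv
    · intro i hi
      exact kf_of_kf _ _ _ (hσ i hi) (hu1 i hi) (hv1 i hi)
  · intro a ha
    set P : Submodule (ZMod 2) (V → K) :=
      { carrier := {q | (∀ w, q (ι w) = 0) ∧ ∀ v, v ∉ Set.range ι → kf (q v) (σ v) = 0}
        zero_mem' := ⟨fun _ => rfl, fun _ _ => kf_zero_left _⟩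
        add_mem' := by
          rintro q r ⟨h1, h2⟩ ⟨h3, h4⟩
          refine ⟨fun w => ?_, fun v hv => ?_⟩
          · rw [Pi.add_apply, h1, h3, add_zero]
          · rw [Pi.add_apply, kf_add_left, h2 v hv, h4 v hv, add_zero]
        smul_mem' := by
          rintro c q ⟨h1, h2⟩
          refine ⟨fun w => ?_, fun v hv => ?_⟩
          · rw [Pi.smul_apply, h1, smul_zero]
          · have h3 := h2 v hv
            simp only [kf, Pi.smul_apply, Prod.smul_fst, Prod.smul_snd, smul_eq_mul] at *
            linear_combination c * h3 } with hP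
    set a' : V → K := Function.extend ι a (0 : V → K) with ha'
    have e1 : ∀ w, a' (ι w) = a w := fun w => hι.extend_apply a (0 : V → K) w
    have e2 : ∀ v, v ∉ Set.range ι → a' v = 0 := fun v hv =>
      Function.extend_apply' a (0 : V → K) v (fun ⟨w, hw⟩ => hv ⟨w, hw⟩)
    obtain ⟨l, hl, q, hq, hlq⟩ := mem_sup_of_orth hL P a' (by
      intro u hu hu2
      have h3 : ∀ v, v ∉ Set.range ι → kf (u v) (σ v) = 0 := by
        intro v hv
        rw [← form_single]
        apply hu2
        refine ⟨fun w => ?_, fun i hi => ?_⟩
        · rw [Pi.single_eq_of_ne]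
          rintro rfl
          exact hv ⟨w, rfl⟩
        · by_cases h : i = v
          · subst h
            rw [Pi.single_eq_same, kf_self]
          · rw [Pi.single_eq_of_ne h, kf_zero_left]
      rw [← hsum a' u (fun i hi => by rw [e2 i hi, kf_zero_left])]
      have h4 : (fun w => a' (ι w)) = a := funext e1
      rw [h4]
      exact ha _ ⟨u, hu, h3, rfl⟩)
    have hl' : l = a' + q := (w_add_eq_iff _ _ _).1 hlq
    refine ⟨l, hl, ?_, ?_⟩
    · intro v hv
      rw [hl', Pi.add_apply, e2 v hv, zero_add]
      exact hq.2 v hv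
    · funext w
      rw [hl', Pi.add_apply, e1, hq.1 w, add_zero]

end minor

section matrix
variable {V : Type} [Fintype V]

/-- in a self-dual code without `{0, z}`-words there is a word with a letter `x` or `y` exactly at
`v` -/
theorem exists_row {L : Submodule (ZMod 2) (V → K)} (hL : IsCode L) (hz : NoZ L) (v : V) :
    ∃ r ∈ L, (r v).1 = 1 ∧ ∀ w, w ≠ v → (r w).1 = 0 := by
  classical
  set P : Submodule (ZMod 2) (V → K) :=
    { carrier := {q | ZOnly q}
      zero_mem' := fun _ => rfl
      add_mem' := by
        intro q r h1 h2 w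
        rw [Pi.add_apply, Prod.fst_add, h1 w, h2 w, add_zero]
      smul_mem' := by
        intro c q h1 w
        rw [Pi.smul_apply, Prod.smul_fst, h1 w, smul_zero] } with hP
  obtain ⟨l, hl, q, hq, hlq⟩ := mem_sup_of_orth hL P (Pi.single v (1, 0)) (by
    intro u hu hu2
    have h3 : ZOnly u := by
      intro w
      rw [← kf_z_right, ← form_single]
      apply hu2
      intro i
      by_cases h : i = w
      · subst h
        rw [Pi.single_eq_same]
        rfl
      · rw [Pi.single_eq_of_ne h]
        rfl
    rw [hz u hu h3]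
    simp [form, kf_zero_right])
  have hl' : l = Pi.single v (1, 0) + q := (w_add_eq_iff _ _ _).1 hlq
  refine ⟨l, hl, ?_, ?_⟩
  · rw [hl', Pi.add_apply, Pi.single_eq_same, Prod.fst_add]
    have := hq v
    rw [this, add_zero]
  · intro w hw
    rw [hl', Pi.add_apply, Pi.single_eq_of_ne hw, Prod.fst_add]
    have := hq w
    rw [this, Prod.fst_zero, add_zero]

/-- a word of a self-dual code without `{0, z}`-words is determined by its support of letters -/
theorem eq_of_fst {L : Submodule (ZMod 2) (V → K)} (hz : NoZ L) {u w : V → K} (hu : u ∈ L)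
    (hw : w ∈ L) (h : ∀ v, (u v).1 = (w v).1) : u = w := by
  have h1 : u - w = 0 := by
    apply hz _ (L.sub_mem hu hw)
    intro v
    rw [Pi.sub_apply, Prod.fst_sub, h v, sub_self]
  exact sub_eq_zero.1 h1

/-- a self-dual code without `{0, z}`-words is the code of a symmetric matrix -/
theorem exists_matrix {L : Submodule (ZMod 2) (V → K)} (hL : IsCode L) (hz : NoZ L) :
    ∃ H : V → V → ZMod 2, (∀ u v, H u v = H v u) ∧
      ∀ u, u ∈ L ↔ ∀ v, (u v).2 = ∑ w, H v w * (u w).1 := by
  classical
  choose r hr hr1 hr0 using fun v => exists_row hL hz v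
  have hrow : ∀ (u : V → K) (v : V), form u (r v) = (u v).2 + ∑ w, (r v w).2 * (u w).1 := by
    intro u v
    simp only [form, kf, Finset.sum_add_distrib]
    rw [add_comm]
    congr 1
    · rw [Finset.sum_eq_single v]
      · rw [hr1, mul_one]
      · intro i _ hi
        rw [hr0 v i hi, mul_zero]
      · intro h
        exact absurd (Finset.mem_univ v) h
    · exact Finset.sum_congr rfl fun i _ => mul_comm _ _
  have hsym : ∀ u v, (r u v).2 = (r v u).2 := by
    intro u v
    have h1 := hL.iso _ (hr v) _ (hr u)
    rw [hrow] at h1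
    have h2 : ∑ w, (r u w).2 * (r v w).1 = (r u v).2 := by
      rw [Finset.sum_eq_single v]
      · rw [hr1, mul_one]
      · intro i _ hi
        rw [hr0 v i hi, mul_zero]
      · intro h
        exact absurd (Finset.mem_univ v) h
    rw [h2] at h1
    exact (CharTwo.add_eq_zero.1 h1).symm
  refine ⟨fun v w => (r v w).2, hsym, ?_⟩
  intro u
  constructor
  · intro hu v
    have h1 := hL.iso _ hu _ (hr v)
    rw [hrow] at h1
    exact CharTwo.add_eq_zero.1 h1
  · intro hu
    have h1 : u = ∑ w, (u w).1 • r w := by
      have h2 : ∀ v, (∑ w, (u w).1 • r w) v = ∑ w, (u w).1 • r w v := by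
        intro v
        rw [Finset.sum_apply]
        rfl
      funext v
      rw [h2]
      apply Prod.ext
      · rw [Prod.fst_sum, Finset.sum_eq_single v]
        · rw [Prod.smul_fst, hr1, smul_eq_mul, mul_one]
        · intro i _ hi
          rw [Prod.smul_fst, hr0 i v (Ne.symm hi), smul_zero]
        · intro h
          exact absurd (Finset.mem_univ v) h
      · rw [Prod.snd_sum, hu v]
        refine Finset.sum_congr rfl fun i _ => ?_
        rw [Prod.smul_snd, smul_eq_mul, hsym i v, mul_comm]
    rw [h1]
    exact Submodule.sum_mem _ fun w _ => L.smul_mem _ (hr w)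

end matrix

end Pool.Agent.H98.Code
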